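import Pool.Agent.Lib.MP_7682a8_an.KB.Iface

/-!
MP_7682a8_an, project KB, module POL: polar coordinates in an annulus.
-/

set_option autoImplicit false

open Metric Set MeasureTheory Filter
open scoped Topology Real

namespace Pool.Agent.Lib.MP_7682a8_an.KB.H22

theorem polar_symm_eq (p : ℝ × ℝ) : Complex.polarCoord.symm p = circleMap 0 p.1 p.2 := by
  rw [Complex.polarCoord_symm_apply, circleMap, zero_add, Complex.exp_mul_I]
  push_cast
  ring

theorem pol : PolStmt := by
  intro φ ε ρ hε hρ hφ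
  set A : Set ℂ := {z : ℂ | ε < ‖z‖ ∧ ‖z‖ < ρ} with hA
  have hAm : MeasurableSet A := by
    have : IsOpen A := by
      rw [hA]
      exact (isOpen_lt continuous_const continuous_norm).inter
        (isOpen_lt continuous_norm continuous_const)
    exact this.measurableSet
  rw [← integral_indicator hAm, ← Complex.integral_comp_polarCoord_symm]
  have hpos : ∀ r : ℝ, r ∈ Ioo ε ρ → 0 < r := fun r hr => lt_trans hε hr.1
  -- step 1: the integrand in the strip
  have e1 : ∀ p ∈ polarCoord.target, p.1 • A.indicator (fun z => φ z / ‖z‖ ^ 2)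
      (Complex.polarCoord.symm p) =
      (Ioo ε ρ ×ˢ (univ : Set ℝ)).indicator (fun p : ℝ × ℝ => φ (circleMap 0 p.1 p.2) / p.1) p := by
    intro p hp
    rw [polarCoord_target] at hp
    have hp1 : 0 < p.1 := hp.1
    have hn : ‖circleMap 0 p.1 p.2‖ = p.1 := by
      rw [norm_circleMap_zero, abs_of_pos hp1]
    rw [polar_symm_eq]
    by_cases hr : p.1 ∈ Ioo ε ρ
    · rw [indicator_of_mem, indicator_of_mem]
      · rw [hn, smul_eq_mul]
        field_simp
      · exact ⟨hr, mem_univ _⟩
      · show ε < ‖circleMap 0 p.1 p.2‖ ∧ ‖circleMap 0 p.1 p.2‖ < ρ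
        rw [hn]; exact hr
    · rw [indicator_of_notMem, indicator_of_notMem, smul_zero]
      · intro h; exact hr h.1
      · intro h
        apply hr
        have h' : ε < ‖circleMap 0 p.1 p.2‖ ∧ ‖circleMap 0 p.1 p.2‖ < ρ := h
        rw [hn] at h'; exact h'
  have hS : MeasurableSet (Ioo ε ρ ×ˢ (univ : Set ℝ)) := measurableSet_Ioo.prod MeasurableSet.univ
  rw [setIntegral_congr_fun polarCoord.open_target.measurableSet e1,
    setIntegral_indicator hS]
  have e2 : polarCoord.target ∩ (Ioo ε ρ ×ˢ (univ : Set ℝ)) = Ioo ε ρ ×ˢ Ioo (-π) π := by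
    rw [polarCoord_target]
    ext p
    simp only [mem_inter_iff, mem_prod, mem_Ioi, mem_univ, and_true]
    constructor
    · rintro ⟨⟨_, h2⟩, h3⟩; exact ⟨h3, h2⟩
    · rintro ⟨h1, h2⟩; exact ⟨⟨hpos _ h1, h2⟩, h1⟩
  rw [e2]
  -- continuity on the compact rectangle
  have hcont : ContinuousOn (fun p : ℝ × ℝ => φ (circleMap 0 p.1 p.2) / p.1)
      (Icc ε ρ ×ˢ Icc (-π) π) := by
    apply ContinuousOn.div
    · apply hφ.comp
      · apply Continuous.continuousOn
        unfold circleMap
        fun_prop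
      · intro p hp
        have hp0 : 0 < p.1 := lt_of_lt_of_le hε hp.1.1
        show ε ≤ ‖circleMap 0 p.1 p.2‖ ∧ ‖circleMap 0 p.1 p.2‖ ≤ ρ
        rw [norm_circleMap_zero, abs_of_pos hp0]
        exact hp.1
    · exact continuous_fst.continuousOn
    · intro p hp
      exact (lt_of_lt_of_le hε hp.1.1).ne'
  have hint : IntegrableOn (fun p : ℝ × ℝ => φ (circleMap 0 p.1 p.2) / p.1)
      (Ioo ε ρ ×ˢ Ioo (-π) π) (volume.prod volume) := by
    have h1 : IntegrableOn (fun p : ℝ × ℝ => φ (circleMap 0 p.1 p.2) / p.1)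
      (Icc ε ρ ×ˢ Icc (-π) π) volume :=
      hcont.integrableOn_compact (isCompact_Icc.prod isCompact_Icc)
    exact h1.mono_set (prod_mono Ioo_subset_Icc_self Ioo_subset_Icc_self)
  rw [Measure.volume_eq_prod, setIntegral_prod _ hint, intervalIntegral.integral_of_le hρ.le,
    integral_Ioc_eq_integral_Ioo]
  apply setIntegral_congr_fun measurableSet_Ioo
  intro r hr
  show ∫ θ in Ioo (-π) π, φ (circleMap 0 r θ) / r =
    (∫ θ in (0 : ℝ)..(2 * Real.pi), φ (circleMap 0 r θ)) / r
  rw [← integral_Ioc_eq_integral_Ioo, ← intervalIntegral.integral_of_le (by linarith [Real.pi_pos]),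
    intervalIntegral.integral_div]
  congr 1
  have hper : Function.Periodic (fun θ => φ (circleMap 0 r θ)) (2 * π) := by
    intro θ
    show φ (circleMap 0 r (θ + 2 * π)) = φ (circleMap 0 r θ)
    rw [periodic_circleMap]
  have := hper.intervalIntegral_add_eq (-π) 0
  have e3 : -π + 2 * π = π := by ring
  rw [e3, zero_add] at this
  exact this

end Pool.Agent.Lib.MP_7682a8_an.KB.H22
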